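import Pool.Agent.H40.JsRay

set_option autoImplicit false

namespace Pool.Agent.Results.MP_6a4164_lc.NotNCompact

open Set Filter OnePoint Topology
open Pool.Agent.H40.Bspt Pool.Agent.H40.Jz Pool.Agent.H40.Js Pool.Agent.H40.Js.Ray

/-- `Z` is the intersection of a nonempty countable family of clopen subsets of `X` -/
def CDelta {M : Type} (E : M → M → Prop) (X T Z : M) : Prop :=
  ∃ C, Ctbl E C ∧ (∃ U, E U C) ∧ (∀ U, E U C → Clopen E X T U) ∧ ∀ x, E x Z ↔ ∀ U, E U C → E x U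

theorem result : ∃ (M : Type) (E : M → M → Prop), IsZF E ∧ ∃ Y T X : M,
    IsTop E Y T ∧ Sub E X Y ∧ ZeroDim E X T ∧ T1 E X T ∧
      (∀ F, Filt E (CDelta E X T) F → Cip E F → Fixed E F) ∧ ¬ NCompact E X T := by
  obtain ⟨J⟩ := ex_js fx
  refine ⟨J.M, J.E, J.zf, J.sA unA, J.T, J.sA X, J.isTop, J.subA_iff.2 (subset_univ _),
    J.zeroDim sb _, J.t1 sb _, fixed J ?_ fun n => ?_, J.not_nc sb bad⟩
  · rintro Z ⟨C, -, ⟨U, hU⟩, h1, h2⟩
    obtain ⟨z, h3, rfl⟩ := J.subA (s := X) (a := Z) fun x hx => (h1 U hU).1 x ((h2 x).1 hx U hU)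
    refine ⟨z, rfl, closure z.1, isClosed_closure, Set.ext fun x =>
      ⟨fun h => ⟨subset_closure h, h3 h⟩, fun h => J.memA.1 ((h2 _).2 fun V hV => ?_)⟩⟩
    obtain ⟨y, h4, h5, h6⟩ := (((J.nhd sb).1 ((h1 V hV).2 _ (J.memA.2 h.2))).and_frequently
      (mem_closure_iff_frequently.1 h.1)).exists.imp fun y hy => And.intro hy.2 (hy.1 (h3 hy.2))
    exact h5 ((h2 _).1 (J.memA.2 h4) V hV)
  · obtain ⟨e, he⟩ := exists_surjective_nat A
    have : ∀ k, ∃ C : Set A, IsClopen C ∧ p n ∈ C ∧ C ⊆ ({e k} \ {p n})ᶜ := fun k =>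
      compact_exists_isClopen_in_isOpen
        ((finite_singleton _).subset sdiff_subset).isClosed.isOpen_compl fun h => h.2 rfl
    choose C h1 h2 h3 using this
    have h4 : ∀ᶠ g in NF.F (Γ := G), ∀ k x, g • x ∈ r n ⁻¹' C k ∩ X.1 ↔ x ∈ r n ⁻¹' C k ∩ X.1 := by
      filter_upwards [fixK n, X.2] with g a b k x
      exact and_congr (by simp [r_inv a]) (b x)
    obtain ⟨c, h5, h6, h7⟩ := J.ctblS
      (σ := fun k => ⟨_, h4.mono fun _ h => h k⟩) (h4.mono fun g h k => smul_eq (h k))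
    refine ⟨c, h5, ⟨_, h6 0⟩, h7 _ fun k => (J.clopen_iff sb).2 ⟨inter_subset_right, ?_⟩,
      fun x => ⟨fun h => h7 _ fun k => J.subA_iff.2 (inter_subset_inter_left _
        (preimage_mono (singleton_subset_iff.2 (h2 k)))) x h, fun h => ?_⟩⟩
    · rw [preimage_inter, Subtype.coe_preimage_self, inter_univ]
      exact ((h1 k).preimage (r_cont n)).preimage continuous_subtype_val
    · obtain ⟨x, hx, rfl⟩ := J.elA (h _ (h6 0))
      obtain ⟨k, hk⟩ := he (r n x)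
      exact J.memA.2 ⟨not_not.1 fun a => h3 k (J.memA.1 (h _ (h6 k))).1 ⟨hk.symm, a⟩, hx.2⟩

end Pool.Agent.Results.MP_6a4164_lc.NotNCompact
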